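import Pool.Agent.helper62.RP.Spec

/-!
# MP_07c750_an: row rp:CTT
-/

set_option autoImplicit false

open Polynomial Filter
open Pool.Agent.QU

namespace Pool.Agent.RP

/-- the edges with label `x` -/
def CTT_E {n N : ℕ} [NeZero n] (w : Fin n → Ltr) (t : Fin n → Fin N) (x : Fin 2) :
    Finset (Fin N × Fin N) :=
  ((edg w t).filter (fun e => e.1 = x)).image Prod.snd

theorem CTT_mem {n N : ℕ} [NeZero n] (w : Fin n → Ltr) (t : Fin n → Fin N) (x : Fin 2)
    (e : Fin N × Fin N) : e ∈ CTT_E w t x ↔ ∃ i, pr w t i = (x, e) := by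
  unfold CTT_E edg
  simp only [Finset.mem_image, Finset.mem_filter, Finset.mem_univ, true_and]
  constructor
  · rintro ⟨f, ⟨⟨i, rfl⟩, h1⟩, h2⟩
    exact ⟨i, Prod.ext h1 h2⟩
  · rintro ⟨i, hi⟩
    exact ⟨pr w t i, ⟨⟨i, rfl⟩, by rw [hi]⟩, by rw [hi]⟩

theorem CTT_card {n N : ℕ} [NeZero n] (w : Fin n → Ltr) (t : Fin n → Fin N) (x : Fin 2) :
    (CTT_E w t x).card = nex w t x := by
  unfold CTT_E nex
  refine Finset.card_image_of_injOn ?_
  intro e he f hf hef
  have h1 := (Finset.mem_filter.1 he).2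
  have h2 := (Finset.mem_filter.1 hf).2
  exact Prod.ext (h1.trans h2.symm) hef

theorem CTT_step {n N : ℕ} [NeZero n] (w : Fin n → Ltr) (t : Fin n → Fin N)
    (σ : Fin 2 → Equiv.Perm (Fin N)) (i : Fin n) :
    t i = sg σ (w i) (t (i + 1)) ↔ σ (pr w t i).1 (pr w t i).2.1 = (pr w t i).2.2 := by
  unfold sg pr
  by_cases h : (w i).2 = true
  · rw [if_pos h, if_pos h]
    exact eq_comm
  · rw [if_neg h, if_neg h]
    simp only
    constructor
    · intro h1
      rw [h1]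
      exact (σ (w i).1).apply_symm_apply _
    · intro h1
      rw [← h1]
      exact ((σ (w i).1).symm_apply_apply _).symm

theorem CTT_con {n N : ℕ} [NeZero n] (w : Fin n → Ltr) (t : Fin n → Fin N) :
    Con w t ↔ ∀ x, ∀ e ∈ CTT_E w t x, ∀ f ∈ CTT_E w t x, (e.1 = f.1 ↔ e.2 = f.2) := by
  constructor
  · intro h x e he f hf
    obtain ⟨i, hi⟩ := (CTT_mem w t x e).1 he
    obtain ⟨j, hj⟩ := (CTT_mem w t x f).1 hf
    have h1 := h i j (by rw [hi, hj])
    rw [hi, hj] at h1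
    exact h1
  · intro h i j hij
    have h1 := h (pr w t i).1 (pr w t i).2 ((CTT_mem w t _ _).2 ⟨i, rfl⟩) (pr w t j).2
      ((CTT_mem w t _ _).2 ⟨j, by rw [hij]⟩)
    exact h1

theorem CTT (h1 : PEX_stmt) : CTT_stmt := by
  intro n N _ w t
  have e1 : (Finset.univ.filter (fun σ : Fin 2 → Equiv.Perm (Fin N) =>
      ∀ i, t i = sg σ (w i) (t (i + 1)))) =
      Fintype.piFinset (fun x : Fin 2 => Finset.univ.filter (fun s : Equiv.Perm (Fin N) =>
        ∀ e ∈ CTT_E w t x, s e.1 = e.2)) := by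
    ext σ
    rw [Finset.mem_filter, Fintype.mem_piFinset]
    simp only [Finset.mem_univ, true_and, Finset.mem_filter]
    constructor
    · intro h x e he
      obtain ⟨i, hi⟩ := (CTT_mem w t x e).1 he
      have h2 := (CTT_step w t σ i).1 (h i)
      rw [hi] at h2
      exact h2
    · intro h i
      rw [CTT_step]
      exact h (pr w t i).1 (pr w t i).2 ((CTT_mem w t _ _).2 ⟨i, rfl⟩)
  rw [e1, Fintype.card_piFinset]
  by_cases hc : Con w t
  · rw [if_pos hc]
    refine Finset.prod_congr rfl fun x _ => ?_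
    rw [h1 N (CTT_E w t x), if_pos ((CTT_con w t).1 hc x), CTT_card]
  · rw [if_neg hc]
    have h2 : ¬ ∀ x, ∀ e ∈ CTT_E w t x, ∀ f ∈ CTT_E w t x, (e.1 = f.1 ↔ e.2 = f.2) :=
      fun h => hc ((CTT_con w t).2 h)
    obtain ⟨x, hx⟩ := not_forall.1 h2
    refine Finset.prod_eq_zero (Finset.mem_univ x) ?_
    rw [h1 N (CTT_E w t x), if_neg hx]

end Pool.Agent.RP
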