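import Pool.Agent.helper62.RP.Spec

/-!
# MP_07c750_an: row rp:NUA
-/

set_option autoImplicit false

open Polynomial Filter
open Pool.Agent.QU

namespace Pool.Agent.RP

/-- functions which grow slower than every exponential -/
def NUA_S (f : ℕ → ℝ) : Prop :=
  ∀ r : ℝ, 0 < r → r < 1 → Tendsto (fun s => f s * r ^ s) atTop (nhds 0)

theorem NUA_const (c : ℝ) : NUA_S (fun _ => c) := by
  intro r h0 h1
  have := (tendsto_pow_atTop_nhds_zero_of_lt_one h0.le h1).const_mul c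
  rw [mul_zero] at this
  exact this

theorem NUA_id : NUA_S (fun s => (s : ℝ)) := by
  intro r h0 h1
  exact tendsto_self_mul_const_pow_of_lt_one h0.le h1

theorem NUA_add {f g : ℕ → ℝ} (hf : NUA_S f) (hg : NUA_S g) : NUA_S (fun s => f s + g s) := by
  intro r h0 h1
  have := (hf r h0 h1).add (hg r h0 h1)
  rw [add_zero] at this
  refine this.congr fun s => ?_
  ring

theorem NUA_mul {f g : ℕ → ℝ} (hf : NUA_S f) (hg : NUA_S g) : NUA_S (fun s => f s * g s) := by
  intro r h0 h1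
  have h2 : 0 < √r := Real.sqrt_pos.2 h0
  have h3 : √r < 1 := by
    rw [Real.sqrt_lt' one_pos, one_pow]
    exact h1
  have := (hf _ h2 h3).mul (hg _ h2 h3)
  rw [mul_zero] at this
  refine this.congr fun s => ?_
  have h4 : r ^ s = √r ^ s * √r ^ s := by rw [← mul_pow, Real.mul_self_sqrt h0.le]
  rw [h4]
  ring

theorem NUA_pow {f : ℕ → ℝ} (hf : NUA_S f) (k : ℕ) : NUA_S (fun s => f s ^ k) := by
  induction k with
  | zero =>
    simp only [pow_zero]
    exact NUA_const 1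
  | succ k ih =>
    simp only [pow_succ]
    exact NUA_mul ih hf

theorem NUA_L (q D₀ : ℕ) : NUA_S (fun s => (nuL q D₀ s : ℝ)) := by
  have h1 : (fun s => (nuL q D₀ s : ℝ)) = fun s : ℕ => (q : ℝ) * ((D₀ : ℝ) * (s : ℝ)) + 1 := by
    funext s
    unfold nuL
    push_cast
    ring
  rw [h1]
  exact NUA_add (NUA_mul (NUA_const _) (NUA_mul (NUA_const _) NUA_id)) (NUA_const 1)

/-- the polynomial factor of `nuE` -/
noncomputable def NUA_P (q D₀ B s : ℕ) : ℝ :=
  (nuL q D₀ s : ℝ) * (((D₀ * s : ℕ) : ℝ) + 1) ^ 3 * (B : ℝ) ^ 3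

theorem NUA_PS (q D₀ B : ℕ) : NUA_S (fun s => NUA_P q D₀ B s) := by
  have h1 : NUA_S (fun s : ℕ => ((D₀ * s : ℕ) : ℝ) + 1) := by
    have h2 : (fun s : ℕ => ((D₀ * s : ℕ) : ℝ) + 1) = fun s : ℕ => (D₀ : ℝ) * (s : ℝ) + 1 := by
      funext s
      push_cast
      ring
    rw [h2]
    exact NUA_add (NUA_mul (NUA_const _) NUA_id) (NUA_const 1)
  exact NUA_mul (NUA_mul (NUA_L q D₀) (NUA_pow h1 3)) (NUA_const _)

theorem NUA_log : Tendsto (fun N : ℕ => Nat.log 4 N) atTop atTop :=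
  tendsto_atTop.2 fun b => eventually_atTop.2 ⟨4 ^ b, fun _ hN => Nat.le_log_of_pow_le (by norm_num) hN⟩

theorem NUA : NUA_stmt := by
  intro q D₀ B
  constructor
  · have h1 : NUA_S (fun s => 8 * (2 * (nuL q D₀ s : ℝ) + 1) ^ 2) :=
      NUA_mul (NUA_const 8) (NUA_pow (NUA_add (NUA_mul (NUA_const 2) (NUA_L q D₀)) (NUA_const 1)) 2)
    have h2 := (h1 (1 / 4) (by norm_num) (by norm_num)).eventually_lt_const one_pos
    have h3 := NUA_log.eventually (h2.and (eventually_ge_atTop 1))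
    filter_upwards [h3, eventually_ge_atTop 1] with N hN hN1
    refine ⟨hN.2, ?_⟩
    have h4 : 4 ^ Nat.log 4 N ≤ N := Nat.pow_log_le_self 4 (by omega)
    have h5 : (0 : ℝ) < 4 ^ Nat.log 4 N := by positivity
    have h6 := hN.1
    rw [one_div, inv_pow, ← div_eq_mul_inv, div_lt_one h5] at h6
    have h7 : 8 * (2 * nuL q D₀ (Nat.log 4 N) + 1) ^ 2 < 4 ^ Nat.log 4 N := by exact_mod_cast h6
    omega
  · set G : ℕ → ℝ := fun s => 2 * (4 * (NUA_P q D₀ B s * (1 / 16) ^ s) +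
      (((nuL q D₀ s : ℝ) ^ 2 + 2) * NUA_P q D₀ B s) * (1 / 64) ^ s +
      (1024 * (2 * (nuL q D₀ s : ℝ) + 1) ^ 8) * (1 / 2) ^ s) with hG
    have hG0 : Tendsto G atTop (nhds 0) := by
      have a1 := ((NUA_PS q D₀ B) (1 / 16) (by norm_num) (by norm_num)).const_mul 4
      have a2 := (NUA_mul (NUA_add (NUA_pow (NUA_L q D₀) 2) (NUA_const 2)) (NUA_PS q D₀ B))
        (1 / 64) (by norm_num) (by norm_num)
      have a3 := (NUA_mul (NUA_const 1024) (NUA_pow (NUA_add (NUA_mul (NUA_const 2) (NUA_L q D₀))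
        (NUA_const 1)) 8)) (1 / 2) (by norm_num) (by norm_num)
      have a4 := (((a1.add a2).add a3).const_mul 2)
      simp only [mul_zero, add_zero] at a4
      exact a4
    refine squeeze_zero' ?_ ?_ (hG0.comp NUA_log)
    · refine Eventually.of_forall fun N => ?_
      unfold nuE
      positivity
    · filter_upwards [eventually_ge_atTop 1] with N hN1
      set s : ℕ := Nat.log 4 N with hs
      have h4 : 4 ^ s ≤ N := Nat.pow_log_le_self 4 (by omega)
      have h5 : N < 4 ^ (s + 1) := Nat.lt_pow_succ_log_self (by norm_num) N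
      have h4' : (4 : ℝ) ^ s ≤ N := by exact_mod_cast h4
      have h5' : (N : ℝ) ≤ 4 ^ (s + 1) := by exact_mod_cast h5.le
      have hP : 0 ≤ NUA_P q D₀ B s := by unfold NUA_P; positivity
      have hE : nuE q D₀ B s = NUA_P q D₀ B s * (1 / 64) ^ s := rfl
      have h4pos : (0 : ℝ) < 4 ^ s := by positivity
      have hN0 : (0 : ℝ) < N := lt_of_lt_of_le h4pos h4'
      have b1 : (N : ℝ) * nuE q D₀ B s ≤ 4 * (NUA_P q D₀ B s * (1 / 16) ^ s) := by
        rw [hE]
        have e1 : (4 : ℝ) ^ (s + 1) * (NUA_P q D₀ B s * (1 / 64) ^ s) =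
            4 * (NUA_P q D₀ B s * (1 / 16) ^ s) := by
          have e2 : ((1 : ℝ) / 16) ^ s = 4 ^ s * (1 / 64) ^ s := by
            rw [← mul_pow]
            norm_num
          rw [e2, pow_succ]
          ring
        rw [← e1]
        exact mul_le_mul_of_nonneg_right h5' (by positivity)
      have b3 : 1024 * (2 * (nuL q D₀ s : ℝ) + 1) ^ 8 * 2 ^ s / N ≤
          (1024 * (2 * (nuL q D₀ s : ℝ) + 1) ^ 8) * (1 / 2) ^ s := by
        have e1 : ((1 : ℝ) / 2) ^ s = 2 ^ s / 4 ^ s := by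
          rw [← div_pow]
          norm_num
        rw [e1, mul_div_assoc]
        refine mul_le_mul_of_nonneg_left ?_ (by positivity)
        exact div_le_div_of_nonneg_left (by positivity) h4pos h4'
      show 2 * ((N : ℝ) * nuE q D₀ B s + ((nuL q D₀ s : ℝ) ^ 2 + 2) * nuE q D₀ B s +
        1024 * (2 * (nuL q D₀ s : ℝ) + 1) ^ 8 * 2 ^ s / N) ≤ G s
      have b2 : ((nuL q D₀ s : ℝ) ^ 2 + 2) * nuE q D₀ B s =
          (((nuL q D₀ s : ℝ) ^ 2 + 2) * NUA_P q D₀ B s) * (1 / 64) ^ s := by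
        rw [hE]
        ring
      rw [b2]
      show _ ≤ 2 * (4 * (NUA_P q D₀ B s * (1 / 16) ^ s) +
        (((nuL q D₀ s : ℝ) ^ 2 + 2) * NUA_P q D₀ B s) * (1 / 64) ^ s +
        (1024 * (2 * (nuL q D₀ s : ℝ) + 1) ^ 8) * (1 / 2) ^ s)
      linarith

end Pool.Agent.RP
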